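import Mathlib

namespace Pool.Agent.Results.MP_5f67f4_co.Disproof

/-- Words of length `n` over the alphabet `Fin r` (the letter `x + 1` is written `x`). -/
abbrev Word (r n : ℕ) := Fin n → Fin r

/-- The deletion shadow of a family of words of length `n + 1`. -/
def shadow {r n : ℕ} (F : Finset (Word r (n + 1))) : Finset (Word r n) :=
  Finset.univ.filter (fun v => ∃ w ∈ F, ∃ i : Fin (n + 1), v = fun j => w (i.succAbove j))

/-- The signature `(c_r, c_{r-1}, …, c_1)`: the count of the largest letter comes first. -/
def sig {r n : ℕ} (w : Word r n) : List ℕ :=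
  List.ofFn (fun k : Fin r => (Finset.univ.filter (fun i => w i = k.rev)).card)

/-- The words whose signature is lexicographically at most `s`. -/
def initial (r n : ℕ) (s : List ℕ) : Finset (Word r n) :=
  Finset.univ.filter (fun w => sig w = s ∨ List.Lex (· < ·) (sig w) s)

def MinimalShadow {r n : ℕ} (F : Finset (Word r (n + 1))) : Prop :=
  ∀ G : Finset (Word r (n + 1)), G.card = F.card → (shadow F).card ≤ (shadow G).card

def G0 : Finset (Word 4 3) := Finset.univ.filter (fun w => w 0 ≠ 3 ∧ w 1 ≠ 3)

lemma c1 : G0.card = 36 := by decide +kernel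
lemma c2 : (initial 4 3 [1, 0, 1, 1]).card = 36 := by decide +kernel
lemma c3 : (shadow G0).card = 12 := by decide +kernel
lemma c4 : (shadow (initial 4 3 [1, 0, 1, 1])).card = 13 := by decide +kernel

theorem result : ¬ ∀ (r n : ℕ) (s : List ℕ), 2 ≤ r → s.length = r → s.sum = n + 1 →
    MinimalShadow (initial r (n + 1) s) := by
  intro h
  have := h 4 2 [1, 0, 1, 1] (by norm_num) rfl rfl G0 (c1.trans c2.symm)
  rw [c3, c4] at this
  omega

end Pool.Agent.Results.MP_5f67f4_co.Disproof
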